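import Pool.Agent.Lib_helper68.LEV.Defs
import Pool.Agent.Lib_helper98.WA.Defs

/-!
# The dimension of `S₂(Γ₀(N))` and of its Fricke eigenspaces by the kernel of weight 26. Definitions.
-/

namespace Pool.Agent.DIMK

open Complex MeasureTheory Filter Topology UpperHalfPlane ModularGroup CongruenceSubgroup
open scoped MatrixGroups Modular ENNReal ModularForm ComplexConjugate
open Pool.Agent.LEV (PX pa sg wz S2 G0 co IsFricke Hol)
open Pool.Agent.WA (ch)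

/-- `F(z) y^m` (forms of weight `2m`) -/
noncomputable def nf (m : ℕ) (F : ℍ → ℂ) (z : ℍ) : ℂ := F z * ((z.im ^ m : ℝ) : ℂ)

/-- cusp forms of weight `2m` for `Γ₀(N)` with Fricke eigenvalue `ε` -/
structure IsV (N : ℕ) [Fact N.Prime] (m : ℕ) (ε : ℂ) (F : ℍ → ℂ) : Prop where
  holo : Hol F
  slash : ∀ g : SL(2, ℤ), g ∈ Gamma0 N → ∀ z : ℍ, F (g • z) = LEV.jd g z ^ (2 * m) * F z
  fricke : ∀ z : ℍ, F (wz N z) = ε * (N : ℂ) ^ m * (z : ℂ) ^ (2 * m) * F z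
  bound : ∃ C : ℝ, ∀ z : ℍ, ‖F z‖ * z.im ^ m ≤ C

/-- the space of these forms -/
def VV (N : ℕ) [Fact N.Prime] (m : ℕ) (ε : ℂ) : Submodule ℂ (ℍ → ℂ) where
  carrier := {F | IsV N m ε F}
  add_mem' := by
    rintro F G hF hG
    refine ⟨hF.holo.add hG.holo, fun g hg z => ?_, fun z => ?_, ?_⟩
    · rw [Pi.add_apply, Pi.add_apply, hF.slash g hg, hG.slash g hg, mul_add]
    · rw [Pi.add_apply, Pi.add_apply, hF.fricke, hG.fricke, mul_add]
    · obtain ⟨C, hC⟩ := hF.bound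
      obtain ⟨D, hD⟩ := hG.bound
      refine ⟨C + D, fun z => ?_⟩
      have h0 : (0 : ℝ) ≤ z.im ^ m := pow_nonneg z.im_pos.le m
      calc ‖(F + G) z‖ * z.im ^ m ≤ (‖F z‖ + ‖G z‖) * z.im ^ m := by
            gcongr
            exact norm_add_le _ _
        _ = ‖F z‖ * z.im ^ m + ‖G z‖ * z.im ^ m := by ring
        _ ≤ C + D := add_le_add (hC z) (hD z)
  zero_mem' := by
    refine ⟨differentiableOn_const 0, fun g hg z => ?_, fun z => ?_, ⟨0, fun z => ?_⟩⟩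
    · rw [Pi.zero_apply, Pi.zero_apply, mul_zero]
    · rw [Pi.zero_apply, Pi.zero_apply, mul_zero]
    · rw [Pi.zero_apply, norm_zero, zero_mul]
  smul_mem' := by
    rintro c F hF
    refine ⟨hF.holo.const_smul c, fun g hg z => ?_, fun z => ?_, ?_⟩
    · rw [Pi.smul_apply, Pi.smul_apply, hF.slash g hg, smul_eq_mul, smul_eq_mul]
      ring
    · rw [Pi.smul_apply, Pi.smul_apply, hF.fricke, smul_eq_mul, smul_eq_mul]
      ring
    · obtain ⟨C, hC⟩ := hF.bound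
      refine ⟨‖c‖ * C, fun z => ?_⟩
      rw [Pi.smul_apply, norm_smul, mul_assoc]
      exact mul_le_mul_of_nonneg_left (hC z) (norm_nonneg c)

/-- the reproducing kernel `e_w(z) = (2i)^{2m} v^m / (z - w̄)^{2m}`, `v = Im w` -/
noncomputable def kr (m : ℕ) (w z : ℍ) : ℂ :=
  ((2 * Complex.I) ^ (2 * m) * ((w.im ^ m : ℝ) : ℂ)) / ((z : ℂ) - conj (w : ℂ)) ^ (2 * m)

/-- the average of `e_w` over `Γ₀(N)` -/
noncomputable def AA (N m : ℕ) (w z : ℍ) : ℂ :=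
  ∑' g : Gamma0 N, (LEV.jd (g : SL(2, ℤ)) z ^ (2 * m))⁻¹ * kr m w ((g : SL(2, ℤ)) • z)

/-- the Poincare series with Fricke eigenvalue `ε` -/
noncomputable def PP (N : ℕ) [Fact N.Prime] (m : ℕ) (ε : ℂ) (w z : ℍ) : ℂ :=
  AA N m w z + ε * ((N : ℂ) ^ m * (z : ℂ) ^ (2 * m))⁻¹ * AA N m w (wz N z)

/-- the Petersson product (linear in the first variable) -/
noncomputable def ip (N : ℕ) [Fact N.Prime] (m : ℕ) (F G : ℍ → ℂ) : ℂ :=
  ∑ q : PX N, ∫ z in 𝒟ᵒ, nf m F ((sg q)⁻¹ • z) * conj (nf m G ((sg q)⁻¹ • z))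

/-- the elements of `Γ₀(N)` other than `±1`: sum of `cosh(d(gw,w)/2)^{-26}` -/
noncomputable def off1 (N : ℕ) (w : ℍ) : ℝ≥0∞ :=
  ∑' g : {g : Gamma0 N // (g : SL(2, ℤ)) ≠ 1 ∧ (g : SL(2, ℤ)) ≠ -1},
    ENNReal.ofReal (ch (((g : Gamma0 N) : SL(2, ℤ)) • w) w ^ (-(13 : ℝ)))

/-- the elements of `Γ₀(N) W`: sum of `cosh(d(gWw,w)/2)^{-26}` -/
noncomputable def off2 (N : ℕ) [Fact N.Prime] (w : ℍ) : ℝ≥0∞ :=
  ∑' g : Gamma0 N, ENNReal.ofReal (ch ((g : SL(2, ℤ)) • wz N w) w ^ (-(13 : ℝ)))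

/-- the `n`-th Fourier coefficient of a function of period 1 -/
noncomputable def fc (F : ℍ → ℂ) (n : ℕ) : ℂ :=
  ∫ x in (0 : ℝ)..1, F (UpperHalfPlane.ofComplex ((x : ℂ) + Complex.I)) *
    cexp (-(2 * Real.pi * Complex.I * n * ((x : ℂ) + Complex.I)))

/-- `|a z + b - z̄ (c z + d)|² / (4 y²)`; divided by the determinant this is `cosh²(d(Mz,z)/2)` -/
noncomputable def qq (a b c d : ℤ) (z : ℍ) : ℝ :=
  ‖(a : ℂ) * (z : ℂ) + b - conj (z : ℂ) * ((c : ℂ) * (z : ℂ) + d)‖ ^ 2 / (4 * z.im ^ 2)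

end Pool.Agent.DIMK
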